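import Pool.Agent.Helper7.BU.Hyp

/-!
# MP_6468e7_an: maps sending concentric circles into lines or into concentric circles

For a compactly supported `C¹` map `f` of the plane that sends every circle `|z| = r` into a line
(depending on `r`) or into a circle centred at a fixed point `c`, the Burkholder functional at
`(∂f, ∂̄f)` is nonnegative for every `p > 1`.
-/

set_option autoImplicit false

open scoped ComplexConjugate

namespace Pool.Agent.Results.MP_6468e7_an.CircleImages

/-- Let `f` be a compactly supported `C¹` map of the plane and `c` a point such that for each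
`r > 0` the image of the circle `|z| = r` lies on a line (the points `w` with
`Im (w v̄) = β`, where `v ≠ 0`) or on a circle `|w - c| = R`.  Then for every `p > 1` the
integral of `Φ_p (∂f, ∂̄f)` is nonnegative. -/
theorem result (f : ℂ → ℂ) (hf : ContDiff ℝ 1 f) (hs : HasCompactSupport f) (c : ℂ)
    (hyp : ∀ r : ℝ, 0 < r →
      (∃ (v : ℂ) (β : ℝ), v ≠ 0 ∧ ∀ z : ℂ, ‖z‖ = r → (f z * conj v).im = β) ∨
      (∃ R : ℝ, ∀ z : ℂ, ‖z‖ = r → ‖f z - c‖ = R))
    (p : ℝ) (hp : 1 < p) :
    0 ≤ ∫ z : ℂ,
      p * (1 - 1 / max p (p / (p - 1))) ^ (p - 1) *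
        ((max p (p / (p - 1)) - 1) *
            ‖(fderiv ℝ f z 1 - Complex.I * fderiv ℝ f z Complex.I) / 2‖ -
          ‖(fderiv ℝ f z 1 + Complex.I * fderiv ℝ f z Complex.I) / 2‖) *
        (‖(fderiv ℝ f z 1 - Complex.I * fderiv ℝ f z Complex.I) / 2‖ +
          ‖(fderiv ℝ f z 1 + Complex.I * fderiv ℝ f z Complex.I) / 2‖) ^ (p - 1) :=
  Helper7.BU.burk_radial hf hs (c := c)
    (fun r hr => (hyp r hr).imp (Helper7.BU.col_of_line hr) (Helper7.BU.round_of_circle hr)) hp

end Pool.Agent.Results.MP_6468e7_an.CircleImages
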