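import Pool.Agent.Helper7.BU.Hyp

/-!
# MP_3a126c_an: Šverák's planar inequality for maps sending concentric circles into lines or
into concentric circles
-/

set_option autoImplicit false

open scoped ComplexConjugate

noncomputable section

namespace Pool.Agent.Results.MP_3a126c_an.PlaneCircles

/-- the Burkholder–Šverák function -/
def L (z w : ℂ) : ℝ := if ‖z‖ + ‖w‖ ≤ 1 then ‖z‖ ^ 2 - ‖w‖ ^ 2 else 2 * ‖z‖ - 1

/-- the derivative `∂ f = (f_x - i f_y) / 2` -/
def del (f : ℂ → ℂ) (z : ℂ) : ℂ := (fderiv ℝ f z 1 - Complex.I * fderiv ℝ f z Complex.I) / 2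

/-- the derivative `∂̄ f = (f_x + i f_y) / 2` -/
def delbar (f : ℂ → ℂ) (z : ℂ) : ℂ := (fderiv ℝ f z 1 + Complex.I * fderiv ℝ f z Complex.I) / 2

/-- Let `f` be a compactly supported `C¹` map of the plane and `c` a point such that for each
`r > 0` the image of the circle `|z| = r` lies on a line (the points `w` with
`Im (w v̄) = β`, where `v ≠ 0`) or on a circle `|w - c| = R`.  Then Šverák's inequality
`∫ L (∂f, ∂̄f) ≥ 0` holds. -/
theorem result (f : ℂ → ℂ) (hf : ContDiff ℝ 1 f) (hs : HasCompactSupport f) (c : ℂ)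
    (hyp : ∀ r : ℝ, 0 < r →
      (∃ (v : ℂ) (β : ℝ), v ≠ 0 ∧ ∀ z : ℂ, ‖z‖ = r → (f z * conj v).im = β) ∨
      (∃ R : ℝ, ∀ z : ℂ, ‖z‖ = r → ‖f z - c‖ = R)) :
    0 ≤ ∫ z : ℂ, L (del f z) (delbar f z) :=
  Helper7.BU.sv_radial hf hs (c := c)
    (fun r hr => (hyp r hr).imp (Helper7.BU.col_of_line hr) (Helper7.BU.round_of_circle hr))

end Pool.Agent.Results.MP_3a126c_an.PlaneCircles
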