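import Pool.Agent.Helper7.BU.Hyp

/-!
# MP_3a126c_an: Šverák's planar inequality for maps sending rays from the origin into lines
through the origin
-/

set_option autoImplicit false

open Complex

noncomputable section

namespace Pool.Agent.Results.MP_3a126c_an.PlaneRays

/-- the Burkholder–Šverák function -/
def L (z w : ℂ) : ℝ := if ‖z‖ + ‖w‖ ≤ 1 then ‖z‖ ^ 2 - ‖w‖ ^ 2 else 2 * ‖z‖ - 1

/-- the derivative `∂ f = (f_x - i f_y) / 2` -/
def del (f : ℂ → ℂ) (z : ℂ) : ℂ := (fderiv ℝ f z 1 - I * fderiv ℝ f z I) / 2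

/-- the derivative `∂̄ f = (f_x + i f_y) / 2` -/
def delbar (f : ℂ → ℂ) (z : ℂ) : ℂ := (fderiv ℝ f z 1 + I * fderiv ℝ f z I) / 2

/-- Let `f` be a compactly supported `C¹` map of the plane that sends, for each `θ`, the ray
`{r e^{iθ} : r > 0}` into the line through `0` spanned by `e^{iφ(θ)}`, where `φ` is differentiable
on the real line with derivative `κ` taking no value in `(0,1)`.  Then Šverák's inequality
`∫ L (∂f, ∂̄f) ≥ 0` holds. -/
theorem result (f : ℂ → ℂ) (hf : ContDiff ℝ 1 f) (hs : HasCompactSupport f)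
    (φ κ : ℝ → ℝ) (hφ : ∀ θ, HasDerivAt φ (κ θ) θ) (hκ : ∀ θ, κ θ ≤ 0 ∨ 1 ≤ κ θ)
    (hyp : ∀ r θ : ℝ, 0 < r → ∃ G : ℝ, f (r * exp (θ * I)) = G * exp (φ θ * I)) :
    0 ≤ ∫ z : ℂ, L (del f z) (delbar f z) :=
  Helper7.BU.sv_rays hf hs (Helper7.BU.ray_of hφ (fun θ => hκ θ) hyp)

end Pool.Agent.Results.MP_3a126c_an.PlaneRays
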