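import Pool.Agent.Helper7.BU.Hyp

/-!
# MP_6468e7_an: maps sending rays from the origin into lines through the origin

For a compactly supported `C¹` map `f(r e^{iθ}) = G(r,θ) e^{iφ(θ)}` with `G` real, the Burkholder
functional at `(∂f, ∂̄f)` is nonnegative for `1 < p ≤ 2` if `φ'` never lies in `(0,1)`, and for
`p ≥ 2` if `φ'` never lies in `(-1,0)`.
-/

set_option autoImplicit false

open Complex

namespace Pool.Agent.Results.MP_6468e7_an.RayImages

/-- Let `f` be a compactly supported `C¹` map of the plane that sends, for each `θ`, the ray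
`{r e^{iθ} : r > 0}` into the line through `0` spanned by `e^{iφ(θ)}`, where `φ` is differentiable
on the real line with derivative `κ`.  Let `p > 1`, and suppose that `κ` takes no value in `(0,1)`
if `p < 2` and no value in `(-1,0)` if `p > 2`.  Then the integral of `Φ_p (∂f, ∂̄f)` is
nonnegative. -/
theorem result
    (f : ℂ → ℂ) (hf : ContDiff ℝ 1 f) (hs : HasCompactSupport f)
    (φ κ : ℝ → ℝ) (hφ : ∀ θ, HasDerivAt φ (κ θ) θ)
    (hyp : ∀ r θ : ℝ, 0 < r → ∃ G : ℝ, f (r * exp (θ * I)) = G * exp (φ θ * I))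
    (p : ℝ) (hp : 1 < p)
    (h1 : p < 2 → ∀ θ, κ θ ≤ 0 ∨ 1 ≤ κ θ)
    (h2 : 2 < p → ∀ θ, κ θ ≤ -1 ∨ 0 ≤ κ θ) :
    0 ≤ ∫ z : ℂ,
      p * (1 - 1 / max p (p / (p - 1))) ^ (p - 1) *
        ((max p (p / (p - 1)) - 1) *
            ‖(fderiv ℝ f z 1 - I * fderiv ℝ f z I) / 2‖ -
          ‖(fderiv ℝ f z 1 + I * fderiv ℝ f z I) / 2‖) *
        (‖(fderiv ℝ f z 1 - I * fderiv ℝ f z I) / 2‖ +
          ‖(fderiv ℝ f z 1 + I * fderiv ℝ f z I) / 2‖) ^ (p - 1) := by
  rcases lt_trichotomy p 2 with h | h | h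
  · exact Helper7.BU.burk_rays_le hf hs
      (Helper7.BU.ray_of hφ (fun θ => (h1 h θ)) hyp) hp h.le
  · subst h
    exact (Helper7.BU.burk_two hf hs).ge
  · exact Helper7.BU.burk_rays_ge hf hs
      (Helper7.BU.ray_of hφ (fun θ => (h2 h θ)) hyp) h.le

end Pool.Agent.Results.MP_6468e7_an.RayImages
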