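import Pool.Agent.Helper7.BT.Torus

/-!
# MP_3a126c_an: the Burkholder–Šverák inequality on the torus for maps sending horizontal lines
into lines or into circles about a fixed point
-/

set_option autoImplicit false

open scoped ComplexConjugate
open Complex

noncomputable section

namespace Pool.Agent.Results.MP_3a126c_an.TorusLines

/-- the Burkholder–Šverák function -/
def L (z w : ℂ) : ℝ := if ‖z‖ + ‖w‖ ≤ 1 then ‖z‖ ^ 2 - ‖w‖ ^ 2 else 2 * ‖z‖ - 1

/-- the derivative `∂ f = (f_x - i f_y) / 2` -/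
def del (f : ℂ → ℂ) (z : ℂ) : ℂ := (fderiv ℝ f z 1 - I * fderiv ℝ f z I) / 2

/-- the derivative `∂̄ f = (f_x + i f_y) / 2` -/
def delbar (f : ℂ → ℂ) (z : ℂ) : ℂ := (fderiv ℝ f z 1 + I * fderiv ℝ f z I) / 2

theorem col_of_line {f : ℂ → ℂ} {r : ℝ}
    (h : ∃ (v : ℂ) (β : ℝ), v ≠ 0 ∧ ∀ x : ℝ, (f (x + ((-r : ℝ) : ℂ) * I) * conj v).im = β) :
    Helper7.BT.Col f r := by
  obtain ⟨v, β, hv, h⟩ := h
  have h1 : ∀ θ : ℝ, (f (Helper7.BT.cz r θ) * conj v).im = β := fun θ => by
    have := h θ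
    have e : (θ : ℂ) + ((-r : ℝ) : ℂ) * I = Helper7.BT.cz r θ := by
      unfold Helper7.BT.cz; push_cast; ring
    rwa [e] at this
  intro θ₁ θ₂ θ₃
  have h2 : ((f (Helper7.BT.cz r θ₁) - f (Helper7.BT.cz r θ₃)) * conj v).im = 0 := by
    rw [sub_mul, sub_im, h1, h1, sub_self]
  have h3 : ((f (Helper7.BT.cz r θ₂) - f (Helper7.BT.cz r θ₃)) * conj v).im = 0 := by
    rw [sub_mul, sub_im, h1, h1, sub_self]
  generalize f (Helper7.BT.cz r θ₁) - f (Helper7.BT.cz r θ₃) = a at h2 ⊢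
  generalize f (Helper7.BT.cz r θ₂) - f (Helper7.BT.cz r θ₃) = b at h3 ⊢
  have h4 : normSq v * (a * conj b).im = 0 := by
    rw [← im_ofReal_mul, ← mul_conj,
      show v * conj v * (a * conj b) = (a * conj v) * (conj b * v) by ring, mul_im]
    have h5 : (conj b * v).im = 0 := by
      have : conj (b * conj v) = conj b * v := by rw [map_mul, conj_conj]
      rw [← this, conj_im, h3, neg_zero]
    rw [h2, h5]
    ring
  exact (mul_eq_zero.1 h4).resolve_left (normSq_eq_zero.not.2 hv)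

theorem round_of_circle {f : ℂ → ℂ} {c : ℂ} {r : ℝ}
    (h : ∃ R : ℝ, ∀ x : ℝ, ‖f (x + ((-r : ℝ) : ℂ) * I) - c‖ = R) : Helper7.BT.Round f c r := by
  obtain ⟨R, h⟩ := h
  have h1 : ∀ θ : ℝ, ‖f (Helper7.BT.cz r θ) - c‖ = R := fun θ => by
    have := h θ
    have e : (θ : ℂ) + ((-r : ℝ) : ℂ) * I = Helper7.BT.cz r θ := by
      unfold Helper7.BT.cz; push_cast; ring
    rwa [e] at this
  intro θ
  rw [h1, h1]

/-- Let `f` be a `C¹` map of the plane with periods `1` and `i` (a map of the torus) and `c` a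
point such that for every real `y` the image of the horizontal line of height `y` lies on a line
(the points `w` with `Im (w v̄) = β`, where `v ≠ 0`) or on a circle `|w - c| = R`.  Then the
integral of `L (∂f, ∂̄f)` over the torus is nonnegative. -/
theorem result (f : ℂ → ℂ) (hf : ContDiff ℝ 1 f)
    (h1 : ∀ z, f (z + 1) = f z) (h2 : ∀ z, f (z + I) = f z) (c : ℂ)
    (hyp : ∀ y : ℝ,
      (∃ (v : ℂ) (β : ℝ), v ≠ 0 ∧ ∀ x : ℝ, (f (x + y * I) * conj v).im = β) ∨
      (∃ R : ℝ, ∀ x : ℝ, ‖f (x + y * I) - c‖ = R)) :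
    0 ≤ ∫ y in (0 : ℝ)..1, ∫ x in (0 : ℝ)..1,
      L (del f (x + y * I)) (delbar f (x + y * I)) := by
  have h := Helper7.BT.torus_nonneg hf h1 h2 (c := c) fun s =>
    (hyp (-s)).imp (fun h => col_of_line h) (fun h => round_of_circle h)
  have e := intervalIntegral.integral_comp_neg (a := 0) (b := 1)
    (fun r => Helper7.BT.PP f r)
  rw [neg_zero] at e
  rw [← e] at h
  refine h.trans (le_of_eq ?_)
  refine intervalIntegral.integral_congr fun y _ => ?_
  unfold Helper7.BT.PP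
  refine intervalIntegral.integral_congr fun x _ => ?_
  have e : Helper7.BT.cz (-y) x = x + y * I := by
    unfold Helper7.BT.cz; push_cast; ring
  simp only [Helper7.BT.LP]
  rw [e]
  rfl

end Pool.Agent.Results.MP_3a126c_an.TorusLines
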